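import Pool.Agent.MP_ea4e37_lc.W47.Main

set_option autoImplicit false

namespace Pool.Agent.Results.MP_ea4e37_lc.ExtraServer

open Pool.Agent.MP_ea4e37_lc

/-- The competitive ratio of the work function algorithm with `h+1` servers against `h` offline
servers is exactly `(h+1)^2/(h+2)`. -/
theorem result (h : ℕ) (hh : 0 < h) :
    (∀ (M : Type) [MetricSpace M] (A : Fin (h + 1) → M) (e : Fin h ↪ Fin (h + 1)), ∃ B : ℝ,
      ∀ (r : ℕ → M) (S : ℕ → Fin (h + 1) → M) (n : ℕ), IsWFA (Input.plain r) A S n →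
        mov S n ≤ ((h : ℝ) + 1) ^ 2 / (h + 2) * opt (Input.plain r) (A ∘ e) n + B) ∧
    ∃ (M : Type) (_ : MetricSpace M) (a : M), ∀ c B : ℝ, c < ((h : ℝ) + 1) ^ 2 / (h + 2) →
      ∃ req : (Fin (h + 1) → M) → M,
        (∃ S, ∀ n, IsWFA (Input.plain fun t => req (S t)) (fun _ => a) S n) ∧
        ∀ S, (∀ n, IsWFA (Input.plain fun t => req (S t)) (fun _ => a) S n) →
          ∃ n, c * opt (Input.plain fun t => req (S t)) (fun _ : Fin h => a) n + B < mov S n :=
  ⟨fun _ _ A e => W47.upper_succ hh A e, ℝ × (Fin (h + 1) → ℝ), inferInstance, 0,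
    fun c B hc => W47.tight_gen hh c B hc 0 (W47.pt h) (W47.pt_pt h) (W47.zero_pt h)⟩

end Pool.Agent.Results.MP_ea4e37_lc.ExtraServer
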