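import Pool.Agent.MP_ea4e37_lc.Mg.H12_Work

set_option autoImplicit false

namespace Pool.Agent.Results.MP_ea4e37_lc.Rejection

open Pool.Agent.MP_ea4e37_lc

/-- The work function algorithm for the `k`-server problem with rejection: one bound for its
movement (plus the optimum) and for its penalties against `h ≤ k` offline servers.  For `h = k`
the two parts add up to the ratio `2k+1`. -/
theorem result (M : Type) [MetricSpace M] (k : ℕ) (A : Fin k → M) (ρ : Input M)
    (S : ℕ → Fin k → M) (n : ℕ) (hS : IsWFA ρ A S n) (h : ℕ) (hh : 0 < h) (e : Fin h ↪ Fin k) :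
    max (mov S n + opt ρ A n) (pen ρ S n) ≤ (h + 1) * opt ρ (A ∘ e) n + clique (A ∘ e) := by
  have hk : 0 < k := (e ⟨0, hh⟩).pos
  obtain ⟨h1, h2⟩ := H12.run_le hk hS
  have h3 := H12.ext_le_opt (ρ := ρ) (A := A) hh e n S
  have h4 := min_le_left (clique (A ∘ e)) ((h - 1) * opt ρ (A ∘ e) n)
  apply max_le <;> linarith

end Pool.Agent.Results.MP_ea4e37_lc.Rejection
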