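import Pool.Agent.MP_ea4e37_lc.Mg.H12_Star

set_option autoImplicit false

namespace Pool.Agent.Results.MP_ea4e37_lc.StrictRatio

open Pool.Agent.MP_ea4e37_lc

/-- Without additive constant the best competitive ratio for `k` servers is exactly `2k-1`, and the
work function algorithm attains it. -/
theorem result (k : ℕ) (hk : 0 < k) :
    (∀ (M : Type) [MetricSpace M] (A : Fin k → M) (r : ℕ → M) (S : ℕ → Fin k → M) (n : ℕ),
      IsWFA (Input.plain r) A S n → mov S n ≤ (2 * k - 1) * opt (Input.plain r) A n) ∧
    ∃ (M : Type) (_ : MetricSpace M) (A : Fin k → M), ∀ alg : List M → Fin k → M,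
      alg [] = A → (∀ (l : List M) (x : M), x ∈ Set.range (alg (l ++ [x]))) →
      ∃ (r : ℕ → M) (n : ℕ), opt (Input.plain r) A n = 1 ∧
        2 * (k : ℝ) - 1 ≤ mov (fun t => alg ((List.range t).map r)) n := by
  refine ⟨fun M _ A r S n hS => ?_, H12.Star k, inferInstance, fun i => some i,
    fun alg h0 hs => H12.star_lower hk alg h0 hs⟩
  have h1 := (H12.run_le hk hS).1
  have h3 := H12.ext_le_opt (ρ := Input.plain r) (A := A) hk (Function.Embedding.refl _) n S
  change _ ≤ (k + 1) * opt _ A n + min (clique A) ((k - 1) * opt _ A n) at h3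
  have h4 := min_le_right (clique A) ((k - 1) * opt (Input.plain r) A n)
  linarith

end Pool.Agent.Results.MP_ea4e37_lc.StrictRatio
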